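import Mathlib

namespace Pool.Agent.Results.MP_6677ae_co.Disproof

variable {V : Type} [Fintype V] [DecidableEq V]

/-- One round of the spread rule with proportion `p`. -/
noncomputable def spread (p : ℝ) (E : Finset (Finset V)) (B : Finset V) : Finset V :=
  B ∪ (E.filter (fun e => ⌈p * e.card⌉₊ ≤ (e ∩ B).card)).biUnion id

/-- `F_r`; the vertex chosen in round `r + 1` is `u r`. -/
noncomputable def burned (p : ℝ) (E : Finset (Finset V)) (u : ℕ → V) : ℕ → Finset V
  | 0 => ∅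
  | r + 1 => insert (u r) (spread p E (burned p E u r))

def IsBurningSeq (p : ℝ) (E : Finset (Finset V)) (k : ℕ) (u : ℕ → V) : Prop :=
  (∀ r < k, u r ∉ burned p E u r) ∧ burned p E u k = Finset.univ

/-- The burning number `b_p`. -/
noncomputable def b (p : ℝ) (E : Finset (Finset V)) : ℕ := sInf {k | ∃ u, IsBurningSeq p E k u}

def IsLazy (p : ℝ) (E : Finset (Finset V)) (S : Finset V) : Prop :=
  ∃ n, (spread p E)^[n] S = Finset.univ

/-- The lazy burning number `b_{L,p}`. -/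
noncomputable def bL (p : ℝ) (E : Finset (Finset V)) : ℕ :=
  sInf {k | ∃ S, IsLazy p E S ∧ S.card = k}

def H : Finset (Finset (Fin 5)) := {{0, 1}, {1, 2}, {2, 3}, {3, 4}, {0, 2, 4}}

def sp (f : ℕ → ℕ) (B : Finset (Fin 5)) : Finset (Fin 5) :=
  B ∪ (H.filter (fun e => f e.card ≤ (e ∩ B).card)).biUnion id

def f3 (_ : ℕ) : ℕ := 1
def f2 (k : ℕ) : ℕ := k - 1

lemma Hcard : ∀ e ∈ H, e.card = 2 ∨ e.card = 3 := by decide +kernel

lemma sp3 : spread (1 / 3) H = sp f3 := by
  funext B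
  unfold spread sp
  congr 2
  apply Finset.filter_congr
  intro e he
  have : ⌈(1 / 3 : ℝ) * e.card⌉₊ = f3 e.card := by
    rcases Hcard e he with h | h <;> rw [h, Nat.ceil_eq_iff (by decide)] <;> norm_num [f3]
  rw [this]

lemma sp2 : spread (1 / 2) H = sp f2 := by
  funext B
  unfold spread sp
  congr 2
  apply Finset.filter_congr
  intro e he
  have : ⌈(1 / 2 : ℝ) * e.card⌉₊ = f2 e.card := by
    rcases Hcard e he with h | h <;> rw [h, Nat.ceil_eq_iff (by decide)] <;> norm_num [f2]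
  rw [this]

lemma bL_eq (p : ℝ) (h0 : spread p H ∅ = ∅) (h1 : IsLazy p H {2}) : bL p H = 1 := by
  have hle : bL p H ≤ 1 := Nat.sInf_le ⟨{2}, h1, rfl⟩
  apply le_antisymm hle
  obtain ⟨S, ⟨n, hn⟩, hS⟩ := Nat.sInf_mem (s := {k | ∃ S, IsLazy p H S ∧ S.card = k})
    ⟨1, {2}, h1, rfl⟩
  unfold bL
  rw [← hS]
  by_contra hc
  have : S = ∅ := Finset.card_eq_zero.1 (by omega)
  subst this
  rw [Function.iterate_fixed h0] at hn
  exact absurd hn (by decide)

def u3 (r : ℕ) : Fin 5 := if r = 0 then 2 else 0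
def u2 (r : ℕ) : Fin 5 := if r = 0 then 2 else if r = 1 then 0 else 4

lemma seq3 : IsBurningSeq (1 / 3) H 2 u3 := by
  refine ⟨fun r hr => ?_, ?_⟩
  · interval_cases r <;> simp only [burned, sp3] <;> decide +kernel
  · simp only [burned, sp3]; decide +kernel

lemma seq2 : IsBurningSeq (1 / 2) H 3 u2 := by
  refine ⟨fun r hr => ?_, ?_⟩
  · interval_cases r <;> simp only [burned, sp2] <;> decide +kernel
  · simp only [burned, sp2]; decide +kernel

lemma k1 : ∀ a : Fin 5, insert a (sp f2 ∅) ≠ Finset.univ := by decide +kernel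
lemma k2 : ∀ a c : Fin 5, insert c (sp f2 (insert a (sp f2 ∅))) ≠ Finset.univ := by
  decide +kernel

theorem result : ¬ ∀ (V : Type) [Fintype V] [DecidableEq V] [Nonempty V] (E : Finset (Finset V))
    (p q : ℝ), 0 < p → p < 1 → 0 < q → q < 1 → bL p E = bL q E → b p E = b q E := by
  intro h
  have l3 : bL (1 / 3) H = 1 :=
    bL_eq _ (by rw [sp3]; decide +kernel) ⟨2, by rw [sp3]; decide +kernel⟩
  have l2 : bL (1 / 2) H = 1 :=
    bL_eq _ (by rw [sp2]; decide +kernel) ⟨2, by rw [sp2]; decide +kernel⟩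
  have := h (Fin 5) H (1 / 3) (1 / 2) (by norm_num) (by norm_num) (by norm_num) (by norm_num)
    (l3.trans l2.symm)
  have h3 : b (1 / 3) H ≤ 2 := Nat.sInf_le ⟨u3, seq3⟩
  obtain ⟨u, _, hu⟩ := Nat.sInf_mem (s := {k | ∃ u, IsBurningSeq (1 / 2) H k u}) ⟨3, u2, seq2⟩
  change burned (1 / 2) H u (b (1 / 2) H) = _ at hu
  rw [← this] at hu
  generalize b (1 / 3) H = k at h3 hu
  interval_cases k
  · exact absurd hu (by simp only [burned]; decide)
  · simp only [burned, sp2] at hu; exact k1 _ hu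
  · simp only [burned, sp2] at hu; exact k2 _ _ hu

end Pool.Agent.Results.MP_6677ae_co.Disproof
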